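import Pool.Agent.W221.NS.Stm

set_option autoImplicit false

/-!
MD-PK1: the pressure at small scales at one time.
-/

open MeasureTheory Set Metric
open scoped ContDiff

namespace Pool.Agent.W337.MD.PK1

open H459R3.NS W221.NS

lemma pd_smooth {f : V → ℝ} (hf : ContDiff ℝ ∞ f) (i : Fin 3) : ContDiff ℝ ∞ (pd i f) := by
  unfold pd
  exact (hf.fderiv_right (m := ∞) (by simp)).clm_apply contDiff_const

lemma pd_sub {f g : V → ℝ} (hf : ContDiff ℝ ∞ f) (hg : ContDiff ℝ ∞ g) (i : Fin 3) :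
    pd i (fun x => f x - g x) = fun x => pd i f x - pd i g x := by
  funext x
  unfold pd
  rw [fderiv_fun_sub (hf.differentiable (by simp) x) (hg.differentiable (by simp) x)]
  rfl

lemma pd_mul {f g : V → ℝ} (hf : ContDiff ℝ ∞ f) (hg : ContDiff ℝ ∞ g) (i : Fin 3) (x : V) :
    pd i (fun x => f x * g x) x = f x * pd i g x + g x * pd i f x := by
  unfold pd
  rw [fderiv_fun_mul (hf.differentiable (by simp) x) (hg.differentiable (by simp) x)]
  simp

lemma lap_sub {f g : V → ℝ} (hf : ContDiff ℝ ∞ f) (hg : ContDiff ℝ ∞ g) (x : V) :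
    lap (fun x => f x - g x) x = lap f x - lap g x := by
  unfold lap
  rw [← Finset.sum_sub_distrib]
  refine Finset.sum_congr rfl fun j _ => ?_
  rw [pd_sub hf hg, pd_sub (pd_smooth hf j) (pd_smooth hg j)]

lemma comp_smooth {v : V → V} (hv : ContDiff ℝ ∞ v) (i : Fin 3) :
    ContDiff ℝ ∞ (fun y => v y i) := contDiff_pi.1 hv i

lemma nsq_nonneg (v : V → V) (x : V) : 0 ≤ nsq v x := Finset.sum_nonneg fun _ _ => sq_nonneg _

lemma nsq_cont {v : V → V} (hv : Continuous v) : Continuous (nsq v) := by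
  unfold nsq
  exact continuous_finsetSum _ fun i _ => ((continuous_apply i).comp hv).pow 2

lemma adv_cont {v : V → V} (hv : ContDiff ℝ ∞ v) {f : V → ℝ} (hf : ContDiff ℝ ∞ f) :
    Continuous (adv v f) := by
  unfold adv
  exact continuous_finsetSum _ fun i _ => (comp_smooth hv i).continuous.mul (pd_smooth hf i).continuous

lemma intOn {f : V → ℝ} (hf : Continuous f) (a : V) (r : ℝ) : IntegrableOn f (ball a r) :=
  (hf.locallyIntegrable.integrableOn_isCompact (isCompact_closedBall a r)).mono_set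
    ball_subset_closedBall

lemma cs {f g : V → ℝ} (hf : Continuous f) (hg : Continuous g) (a : V) (r : ℝ) :
    |∫ z in ball a r, f z * g z| ≤ √(∫ z in ball a r, f z ^ 2) * √(∫ z in ball a r, g z ^ 2) := by
  have h1 : IntegrableOn (fun z => f z ^ 2) (ball a r) := intOn (hf.pow 2) a r
  have h2 : IntegrableOn (fun z => g z ^ 2) (ball a r) := intOn (hg.pow 2) a r
  have h3 : IntegrableOn (fun z => f z * g z) (ball a r) := intOn (hf.mul hg) a r
  have key : ∀ s : ℝ, 0 ≤ (∫ z in ball a r, f z ^ 2) * (s * s) +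
      (2 * ∫ z in ball a r, f z * g z) * s + ∫ z in ball a r, g z ^ 2 := by
    intro s
    have h4 : 0 ≤ ∫ z in ball a r, (s * f z + g z) ^ 2 := integral_nonneg fun z => sq_nonneg _
    have h5 : (fun z => (s * f z + g z) ^ 2) =
        fun z => (s * s * (f z ^ 2) + 2 * s * (f z * g z)) + g z ^ 2 := by
      funext z; ring
    have h6 : IntegrableOn (fun z => s * s * (f z ^ 2)) (ball a r) := h1.const_mul _
    have h7 : IntegrableOn (fun z => 2 * s * (f z * g z)) (ball a r) := h3.const_mul _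
    have h10 : ∫ z in ball a r, ((s * s * (f z ^ 2) + 2 * s * (f z * g z)) + g z ^ 2) =
        (∫ z in ball a r, (s * s * (f z ^ 2) + 2 * s * (f z * g z))) + ∫ z in ball a r, g z ^ 2 :=
      integral_add (h6.add h7) h2
    have h11 : ∫ z in ball a r, (s * s * (f z ^ 2) + 2 * s * (f z * g z)) =
        (∫ z in ball a r, s * s * (f z ^ 2)) + ∫ z in ball a r, 2 * s * (f z * g z) :=
      integral_add h6 h7
    rw [h5, h10, h11, integral_const_mul, integral_const_mul] at h4
    linarith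
  have h8 := discrim_le_zero key
  rw [discrim] at h8
  have h9 : 0 ≤ ∫ z in ball a r, f z ^ 2 := integral_nonneg fun z => sq_nonneg _
  rw [← Real.sqrt_mul h9]
  apply Real.abs_le_sqrt
  linarith

lemma gen {F f : V → ℝ} {v : V → V} (hf : Continuous f) (hv : Continuous v) {a : V} {r m : ℝ}
    (hm : 0 ≤ m) (h0 : ∀ z ∉ ball a r, F z = 0)
    (hb : ∀ z ∈ ball a r, |F z| ≤ m * (|f z| * √(nsq v z))) :
    |∫ z, F z| ≤ m * (√(∫ z in ball a r, f z ^ 2) * √(A2 a r v)) := by
  rw [← setIntegral_eq_integral_of_forall_compl_eq_zero h0]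
  have hc : Continuous fun z => √(nsq v z) := (nsq_cont hv).sqrt
  have h1 : |∫ z in ball a r, F z| ≤ ∫ z in ball a r, m * (|f z| * √(nsq v z)) := by
    refine (abs_integral_le_integral_abs).trans ?_
    refine integral_mono_of_nonneg (Filter.Eventually.of_forall fun z => abs_nonneg _)
      (intOn (continuous_const.mul (hf.abs.mul hc)) a r) ?_
    filter_upwards [ae_restrict_mem measurableSet_ball] with z hz
    exact hb z hz
  rw [integral_const_mul] at h1
  refine h1.trans (mul_le_mul_of_nonneg_left ?_ hm)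
  refine (le_abs_self _).trans ((cs hf.abs hc a r).trans (le_of_eq ?_))
  unfold A2
  congr 2
  · congr 1
    funext z
    exact sq_abs _
  · congr 1
    funext z
    exact Real.sq_sqrt (nsq_nonneg v z)

lemma adv_le {v : V → V} {f : V → ℝ} {z : V} {κ : ℝ} (hκ : 0 ≤ κ) (h : ∀ i, |pd i f z| ≤ κ) :
    |adv v f z| ≤ 2 * κ * √(nsq v z) := by
  have h1 : ∑ i, |v z i| ≤ 2 * √(nsq v z) := by
    have h2 : (2 : ℝ) * √(nsq v z) = √(4 * nsq v z) := by
      rw [Real.sqrt_mul (by norm_num), show (4 : ℝ) = 2 ^ 2 by norm_num,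
        Real.sqrt_sq (by norm_num)]
    rw [h2]
    apply Real.le_sqrt_of_sq_le
    unfold nsq
    rw [Fin.sum_univ_three, Fin.sum_univ_three]
    have e0 := sq_abs (v z 0)
    have e1 := sq_abs (v z 1)
    have e2 := sq_abs (v z 2)
    nlinarith [sq_nonneg (|v z 0| - |v z 1|), sq_nonneg (|v z 1| - |v z 2|),
      sq_nonneg (|v z 0| - |v z 2|), sq_nonneg (v z 0), sq_nonneg (v z 1), sq_nonneg (v z 2)]
  have h3 : |adv v f z| ≤ ∑ i, |v z i| * κ := by
    unfold adv
    refine (Finset.abs_sum_le_sum_abs _ _).trans (Finset.sum_le_sum fun i _ => ?_)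
    rw [abs_mul]
    exact mul_le_mul_of_nonneg_left (h i) (abs_nonneg _)
  rw [← Finset.sum_mul] at h3
  nlinarith [mul_le_mul_of_nonneg_right h1 hκ]

lemma hcs {φ : V → ℝ} {a : V} {r : ℝ} (h0 : ∀ z ∉ ball a r, φ z = 0) : HasCompactSupport φ :=
  HasCompactSupport.intro (isCompact_closedBall a r)
    fun z hz => h0 z fun h => hz (ball_subset_closedBall h)

lemma pd_out {φ : V → ℝ} (hφ : ContDiff ℝ ∞ φ) {a : V} {r : ℝ} (hr : r ≠ 0)
    (h0 : ∀ z ∉ ball a r, φ z = 0) (i : Fin 3) : ∀ z ∉ ball a r, pd i φ z = 0 := by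
  have h1 : IsClosed {z | pd i φ z = 0} := isClosed_eq (pd_smooth hφ i).continuous continuous_const
  have h2 : (closedBall a r)ᶜ ⊆ {z | pd i φ z = 0} := by
    intro z hz
    have h3 : φ =ᶠ[nhds z] fun _ => 0 := by
      filter_upwards [isClosed_closedBall.isOpen_compl.mem_nhds hz] with y hy
      exact h0 y fun h => hy (ball_subset_closedBall h)
    show pd i φ z = 0
    unfold pd
    rw [h3.fderiv_eq, fderiv_fun_const]
    rfl
  have h4 := closure_minimal h2 h1
  rw [closure_compl, interior_closedBall a hr] at h4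
  exact fun z hz => h4 hz

lemma ibp {v : V → V} (hv : ContDiff ℝ ∞ v) (hdiv : ∀ x, ∑ i, pd i (fun y => v y i) x = 0)
    {φ d : V → ℝ} (hφ : ContDiff ℝ ∞ φ) (hd : ContDiff ℝ ∞ d) (hc : HasCompactSupport φ) :
    ∫ z, d z * adv v φ z = -∫ z, φ z * adv v d z := by
  have hint : ∀ i, Integrable fun z => (d z * v z i) * pd i φ z := fun i =>
    ((hd.continuous.mul (comp_smooth hv i).continuous).mul
      (pd_smooth hφ i).continuous).integrable_of_hasCompactSupport
      (HasCompactSupport.mul_left (hc.fderiv_apply ℝ _))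
  have hint2 : ∀ i, Integrable fun z => pd i (fun z => d z * v z i) z * φ z := fun i =>
    ((pd_smooth (hd.mul (comp_smooth hv i)) i).continuous.mul
      hφ.continuous).integrable_of_hasCompactSupport (HasCompactSupport.mul_left hc)
  have hint3 : ∀ i, Integrable fun z => (d z * v z i) * φ z := fun i =>
    ((hd.continuous.mul (comp_smooth hv i).continuous).mul
      hφ.continuous).integrable_of_hasCompactSupport (HasCompactSupport.mul_left hc)
  have h1 : ∀ i, ∫ z, (d z * v z i) * pd i φ z = -∫ z, pd i (fun z => d z * v z i) z * φ z := by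
    intro i
    exact integral_mul_fderiv_eq_neg_fderiv_mul_of_integrable (hint2 i) (hint i) (hint3 i)
      (fun x _ => (hd.mul (comp_smooth hv i)).differentiable (by simp) x)
      (fun x _ => hφ.differentiable (by simp) x)
  have h2 : (fun z => d z * adv v φ z) = fun z => ∑ i, (d z * v z i) * pd i φ z := by
    funext z
    unfold adv
    rw [Finset.mul_sum]
    exact Finset.sum_congr rfl fun i _ => by ring
  have h3 : (fun z => φ z * adv v d z) = fun z => ∑ i, pd i (fun z => d z * v z i) z * φ z := by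
    funext z
    have h4 : ∑ i, pd i (fun z => d z * v z i) z * φ z =
        φ z * (adv v d z + d z * ∑ i, pd i (fun y => v y i) z) := by
      unfold adv
      rw [Finset.mul_sum, ← Finset.sum_add_distrib, Finset.mul_sum]
      refine Finset.sum_congr rfl fun i _ => ?_
      rw [pd_mul hd (comp_smooth hv i)]
      ring
    rw [h4, hdiv, mul_zero, add_zero]
  rw [h2, h3, integral_finsetSum _ fun i _ => hint i, integral_finsetSum _ fun i _ => hint2 i,
    ← Finset.sum_neg_distrib]
  exact Finset.sum_congr rfl fun i _ => h1 i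

lemma L4_mono {v : V → V} (hv : Continuous v) (a : V) {r s : ℝ} (h : r ≤ s) :
    L4 a r v ≤ L4 a s v := by
  unfold L4
  refine setIntegral_mono_set (intOn ((nsq_cont hv).pow 2) a s)
    (Filter.Eventually.of_forall fun z => sq_nonneg _) ?_
  exact LE.le.eventuallyLE (ball_subset_ball h)

lemma sq_mono {f : V → ℝ} (hf : Continuous f) (a : V) {r s : ℝ} (h : r ≤ s) :
    ∫ z in ball a r, f z ^ 2 ≤ ∫ z in ball a s, f z ^ 2 := by
  refine setIntegral_mono_set (intOn (hf.pow 2) a s)
    (Filter.Eventually.of_forall fun z => sq_nonneg _) ?_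
  exact LE.le.eventuallyLE (ball_subset_ball h)

lemma rr_pos (k : ℕ) : 0 < rr k := by unfold rr; positivity

lemma rr_anti {j k : ℕ} (h : j ≤ k) : rr k ≤ rr j := by
  unfold rr
  exact pow_le_pow_of_le_one (by norm_num) (by norm_num) h

lemma rr_half (k : ℕ) : rr k / 2 = rr (k + 1) := by
  unfold rr
  rw [pow_succ]; ring

lemma vol_ball (a : V) (k : ℕ) : ∫ _z in ball a (rr k), ((1 : ℝ)) ^ 2 = 8 * (1 / 8) ^ k := by
  rw [one_pow, setIntegral_const, smul_eq_mul, mul_one, Measure.real,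
    Real.volume_pi_ball a (rr_pos k), ENNReal.toReal_ofReal (by have := rr_pos k; positivity)]
  simp only [Fintype.card_fin]
  unfold rr
  rw [mul_pow, ← pow_mul, mul_comm k 3, pow_mul]
  norm_num

theorem t_PK1 (h : S_HARM) : S_PK1 := by
  obtain ⟨CH, hCH, hH⟩ := h
  intro C₀ M hC₀ hM
  set K : ℝ := √(4096 * CH * C₀) with hK
  have hK0 : 0 ≤ K := Real.sqrt_nonneg _
  refine ⟨2 * M * √C₀ + 2 * M * K * √8 + 1, by positivity, ?_⟩
  intro v hv hdiv a Q hQ k hk φ hφ hφ0 hφM hφG
  have hvc := hv.continuous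
  have hcomp := hcs hφ0
  -- telescoping
  have htel : ∀ z, Q 3 z = Q (k - 2) z + ∑ j ∈ Finset.Ico 3 (k - 2), (Q j z - Q (j + 1) z) := by
    intro z
    have h1 := Finset.sum_Ico_sub (fun j => -Q j z) (m := 3) (n := k - 2) (by omega)
    have h2 : ∑ j ∈ Finset.Ico 3 (k - 2), (Q j z - Q (j + 1) z) =
        ∑ j ∈ Finset.Ico 3 (k - 2), (-Q (j + 1) z - -Q j z) :=
      Finset.sum_congr rfl fun j _ => by ring
    rw [h2, h1]
    ring
  have hadvc := adv_cont hv hφ
  have hadv0 : HasCompactSupport (adv v φ) := by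
    have h1 : adv v φ = fun z => ∑ j, v z j * pd j φ z := rfl
    rw [h1]
    refine HasCompactSupport.intro (K := tsupport φ) hcomp fun z hz => ?_
    refine Finset.sum_eq_zero fun j _ => ?_
    have h2 : pd j φ z = 0 := by
      unfold pd
      have h3 : fderiv ℝ φ z = 0 := by
        by_contra hne
        exact hz (support_fderiv_subset ℝ (Function.mem_support.2 hne))
      rw [h3]; rfl
    rw [h2, mul_zero]
  have hint : ∀ f : V → ℝ, Continuous f → Integrable fun z => f z * adv v φ z := fun f hf =>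
    (hf.mul hadvc).integrable_of_hasCompactSupport (HasCompactSupport.mul_left hadv0)
  have hsplit : ∫ z, Q 3 z * adv v φ z = (∫ z, Q (k - 2) z * adv v φ z) +
      ∑ j ∈ Finset.Ico 3 (k - 2), ∫ z, (Q j z - Q (j + 1) z) * adv v φ z := by
    have h1 : (fun z => Q 3 z * adv v φ z) = fun z => Q (k - 2) z * adv v φ z +
        ∑ j ∈ Finset.Ico 3 (k - 2), (Q j z - Q (j + 1) z) * adv v φ z := by
      funext z
      rw [htel z, add_mul, Finset.sum_mul]
    have h2 : ∀ j ∈ Finset.Ico 3 (k - 2), Integrable fun z => (Q j z - Q (j + 1) z) * adv v φ z :=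
      fun j _ => hint _ ((hQ j).1.continuous.sub (hQ (j + 1)).1.continuous)
    rw [h1, integral_add (hint _ (hQ _).1.continuous) (integrable_finsetSum _ h2),
      integral_finsetSum _ h2]
  -- first term
  have hpd0 : ∀ z ∉ ball a (rr k), adv v φ z = 0 := by
    intro z hz
    unfold adv
    exact Finset.sum_eq_zero fun j _ => by rw [pd_out hφ (rr_pos k).ne' hφ0 j z hz, mul_zero]
  have hA : |∫ z, Q (k - 2) z * adv v φ z| ≤
      2 * M * √C₀ * (16 ^ k * √(L4 a (rr (k - 2)) v)) * √(A2 a (rr k) v) := by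
    have h1 := gen (F := fun z => Q (k - 2) z * adv v φ z) (f := Q (k - 2)) (v := v) (a := a)
      (r := rr k) (m := 2 * (M * 16 ^ k)) (hQ _).1.continuous hvc (by positivity)
      (fun z hz => by simp only [hpd0 z hz, mul_zero])
      (fun z _ => by
        rw [abs_mul]
        have h2 := adv_le (v := v) (f := φ) (z := z) (κ := M * 16 ^ k) (by positivity) (hφG z)
        have h3 := mul_le_mul_of_nonneg_left h2 (abs_nonneg (Q (k - 2) z))
        linarith)
    have h4 : √(∫ z in ball a (rr k), Q (k - 2) z ^ 2) ≤ √C₀ * √(L4 a (rr (k - 2)) v) := by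
      rw [← Real.sqrt_mul hC₀.le]
      exact Real.sqrt_le_sqrt ((sq_mono (hQ _).1.continuous a (rr_anti (by omega))).trans (hQ _).2.2)
    refine h1.trans ?_
    have h5 : √(∫ z in ball a (rr k), Q (k - 2) z ^ 2) * √(A2 a (rr k) v) ≤
        √C₀ * √(L4 a (rr (k - 2)) v) * √(A2 a (rr k) v) :=
      mul_le_mul_of_nonneg_right h4 (Real.sqrt_nonneg _)
    have h6 := mul_le_mul_of_nonneg_left h5 (show (0:ℝ) ≤ 2 * (M * 16 ^ k) by positivity)
    refine h6.trans (le_of_eq ?_)
    ring
  -- the other terms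
  have hB : ∀ j ∈ Finset.Ico 3 (k - 2), |∫ z, (Q j z - Q (j + 1) z) * adv v φ z| ≤
      2 * M * K * √8 * (√(32 ^ j) * √(8 ^ k) * √(L4 a (rr j) v)) * √(A2 a (rr k) v) := by
    intro j hj
    rw [Finset.mem_Ico] at hj
    have hds : ContDiff ℝ ∞ (fun z => Q j z - Q (j + 1) z) := (hQ j).1.sub (hQ (j + 1)).1
    rw [ibp hv hdiv hφ hds hcomp, abs_neg]
    have hlap : ∀ x ∈ ball a (rr (j + 2)), lap (fun z => Q j z - Q (j + 1) z) x = 0 := by
      intro x hx
      rw [lap_sub (hQ j).1 (hQ (j + 1)).1]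
      have h1 := (hQ j).2.1 x (ball_subset_ball
        (by rw [rr_half]; exact rr_anti (by omega)) hx)
      have h2 := (hQ (j + 1)).2.1 x (ball_subset_ball
        (by rw [rr_half]) hx)
      linarith
    have hnorm : ∫ x in ball a (rr (j + 2)), (Q j x - Q (j + 1) x) ^ 2 ≤
        4 * C₀ * L4 a (rr j) v := by
      have h1 : ∫ x in ball a (rr (j + 2)), (Q j x - Q (j + 1) x) ^ 2 ≤
          ∫ x in ball a (rr (j + 2)), (2 * Q j x ^ 2 + 2 * Q (j + 1) x ^ 2) := by
        refine setIntegral_mono (intOn (hds.continuous.pow 2) _ _)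
          (intOn ((continuous_const.mul ((hQ j).1.continuous.pow 2)).add
            (continuous_const.mul ((hQ (j + 1)).1.continuous.pow 2))) _ _) fun x => ?_
        show (Q j x - Q (j + 1) x) ^ 2 ≤ 2 * Q j x ^ 2 + 2 * Q (j + 1) x ^ 2
        nlinarith [sq_nonneg (Q j x + Q (j + 1) x)]
      have h5 : ∫ x in ball a (rr (j + 2)), (2 * Q j x ^ 2 + 2 * Q (j + 1) x ^ 2) =
          (∫ x in ball a (rr (j + 2)), 2 * Q j x ^ 2) +
          ∫ x in ball a (rr (j + 2)), 2 * Q (j + 1) x ^ 2 :=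
        integral_add (intOn (continuous_const.mul ((hQ j).1.continuous.pow 2)) _ _)
          (intOn (continuous_const.mul ((hQ (j + 1)).1.continuous.pow 2)) _ _)
      rw [h5, integral_const_mul, integral_const_mul] at h1
      have h2 := (sq_mono (hQ j).1.continuous a (rr_anti (show j ≤ j + 2 by omega))).trans
        (hQ j).2.2
      have h3 := (sq_mono (hQ (j + 1)).1.continuous a
        (rr_anti (show j + 1 ≤ j + 2 by omega))).trans (hQ (j + 1)).2.2
      have h4 := mul_le_mul_of_nonneg_left (L4_mono hvc a (rr_anti (show j ≤ j + 1 by omega)))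
        hC₀.le
      linarith
    have hgrad : ∀ z ∈ ball a (rr k), ∀ i,
        |pd i (fun z => Q j z - Q (j + 1) z) z| ≤ K * √(32 ^ j) * √(L4 a (rr j) v) := by
      intro z hz i
      have h1 := (hH _ hds a (rr (j + 2)) (rr_pos _) hlap z
        (ball_subset_ball (by rw [rr_half]; exact rr_anti (by omega)) hz) i).1
      have h2 : (rr (j + 2) ^ 5)⁻¹ = 1024 * 32 ^ j := by
        unfold rr
        rw [← pow_mul, one_div, inv_pow, inv_inv, add_mul, pow_add, mul_comm j 5, pow_mul]
        norm_num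
        ring
      rw [h2] at h1
      have h3 : CH * (1024 * 32 ^ j) * ∫ x in ball a (rr (j + 2)), (Q j x - Q (j + 1) x) ^ 2 ≤
          CH * (1024 * 32 ^ j) * (4 * C₀ * L4 a (rr j) v) :=
        mul_le_mul_of_nonneg_left hnorm (by positivity)
      have h4 : K * √(32 ^ j) * √(L4 a (rr j) v) =
          √(4096 * CH * C₀ * 32 ^ j * L4 a (rr j) v) := by
        rw [hK, Real.sqrt_mul (show (0:ℝ) ≤ 4096 * CH * C₀ * 32 ^ j by positivity) (L4 a (rr j) v),
          Real.sqrt_mul (show (0:ℝ) ≤ 4096 * CH * C₀ by positivity) (32 ^ j)]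
      rw [h4]
      apply Real.abs_le_sqrt
      refine (h1.trans h3).trans (le_of_eq ?_)
      ring
    have h1 := gen (F := fun z => φ z * adv v (fun z => Q j z - Q (j + 1) z) z)
      (f := fun _ => (1 : ℝ)) (v := v) (a := a)
      (r := rr k) (m := M * 8 ^ k * (2 * (K * √(32 ^ j) * √(L4 a (rr j) v))))
      continuous_const hvc (by positivity)
      (fun z hz => by simp only [hφ0 z hz, zero_mul])
      (fun z hz => by
        rw [abs_mul, abs_one, one_mul]
        have h2 := adv_le (v := v) (f := fun z => Q j z - Q (j + 1) z) (z := z)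
          (κ := K * √(32 ^ j) * √(L4 a (rr j) v)) (by positivity) (hgrad z hz)
        have h3 := mul_le_mul (hφM z) h2 (abs_nonneg _) (by positivity)
        refine h3.trans (le_of_eq ?_)
        ring)
    refine h1.trans (le_of_eq ?_)
    rw [vol_ball, Real.sqrt_mul (by norm_num : (0:ℝ) ≤ 8)]
    have h5 : (8 : ℝ) ^ k * √((1 / 8) ^ k) = √(8 ^ k) := by
      have h6 : (8 : ℝ) ^ k = √(8 ^ k) * √(8 ^ k) := (Real.mul_self_sqrt (by positivity)).symm
      have h7 : √((8 : ℝ) ^ k) * √((1 / 8) ^ k) = 1 := by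
        rw [← Real.sqrt_mul (by positivity), ← mul_pow]
        norm_num
      calc (8 : ℝ) ^ k * √((1 / 8) ^ k) = √(8 ^ k) * (√(8 ^ k) * √((1 / 8) ^ k)) := by
            rw [← mul_assoc, ← h6]
        _ = √(8 ^ k) := by rw [h7, mul_one]
    have h8 : M * 8 ^ k * (2 * (K * √(32 ^ j) * √(L4 a (rr j) v))) *
        (√8 * √((1 / 8) ^ k) * √(A2 a (rr k) v)) =
        2 * M * K * √8 * (√(32 ^ j) * (8 ^ k * √((1 / 8) ^ k)) * √(L4 a (rr j) v)) *
        √(A2 a (rr k) v) := by ring
    rw [h8, h5]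
  -- conclusion
  rw [hsplit]
  refine (abs_add_le _ _).trans ?_
  have hsum : |∑ j ∈ Finset.Ico 3 (k - 2), ∫ z, (Q j z - Q (j + 1) z) * adv v φ z| ≤
      2 * M * K * √8 * (∑ j ∈ Finset.Ico 3 (k - 2), √(32 ^ j) * √(8 ^ k) * √(L4 a (rr j) v)) *
      √(A2 a (rr k) v) := by
    refine (Finset.abs_sum_le_sum_abs _ _).trans ((Finset.sum_le_sum hB).trans (le_of_eq ?_))
    rw [← Finset.sum_mul, ← Finset.mul_sum]
  unfold PS
  set X := (16 : ℝ) ^ k * √(L4 a (rr (k - 2)) v) with hX
  set Y := ∑ j ∈ Finset.Ico 3 (k - 2), √(32 ^ j) * √(8 ^ k) * √(L4 a (rr j) v) with hY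
  have hX0 : 0 ≤ X := by positivity
  have hY0 : 0 ≤ Y := Finset.sum_nonneg fun j _ => by positivity
  have hA0 : 0 ≤ √(A2 a (rr k) v) := Real.sqrt_nonneg _
  have e1 : 0 ≤ 2 * M * √C₀ := by positivity
  have e2 : 0 ≤ 2 * M * K * √8 := by positivity
  have e3 : 2 * M * √C₀ * X * √(A2 a (rr k) v) + 2 * M * K * √8 * Y * √(A2 a (rr k) v) ≤
      (2 * M * √C₀ + 2 * M * K * √8 + 1) * √(A2 a (rr k) v) * (X + Y) := by
    have e4 : (2 * M * √C₀ + 2 * M * K * √8 + 1) * √(A2 a (rr k) v) * (X + Y) =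
        2 * M * √C₀ * X * √(A2 a (rr k) v) + 2 * M * K * √8 * Y * √(A2 a (rr k) v) +
        (2 * M * √C₀ * (Y * √(A2 a (rr k) v)) + 2 * M * K * √8 * (X * √(A2 a (rr k) v)) +
          (X + Y) * √(A2 a (rr k) v)) := by ring
    rw [e4]
    have e5 : 0 ≤ 2 * M * √C₀ * (Y * √(A2 a (rr k) v)) + 2 * M * K * √8 * (X * √(A2 a (rr k) v)) +
          (X + Y) * √(A2 a (rr k) v) := by positivity
    linarith
  exact (add_le_add hA hsum).trans e3

end Pool.Agent.W337.MD.PK1
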